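import Mathlib
import Pool.Agent.H.MP_e09a39_co.helper93.Core

/-! An 11 by 14 sign pattern with three zeros in every column, minimum rank 3 and rational minimum
rank 4. -/

set_option autoImplicit false

namespace Pool.Agent.Results.MP_e09a39_co.RankFourOverQ

/-- The least rank of a matrix with entries in `K` and with sign pattern `A`. -/
noncomputable def minRank (K : Type) [Field K] [LinearOrder K] {m n : ℕ}
    (A : Matrix (Fin m) (Fin n) SignType) : ℕ :=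
  sInf {r | ∃ B : Matrix (Fin m) (Fin n) K, (∀ i j, SignType.sign (B i j) = A i j) ∧ B.rank = r}

/-- The entries of the sign pattern (`1` for `+`, `-1` for `-`). -/
def entries : Fin 11 → Fin 14 → SignType :=
  ![  ![ 0, 1, 0, 1,-1, 1, 0, 1,-1, 1, 0, 0,-1, 1],
      ![ 0,-1, 1, 0, 1, 0, 1, 0, 1,-1, 1, 1, 1, 0],
      ![ 1,-1, 1,-1, 1,-1,-1, 0, 0,-1,-1, 0, 1,-1],
      ![ 1, 1, 1, 0, 0, 1, 0, 1,-1, 1,-1, 1,-1, 1],
      ![ 1,-1, 1,-1, 1, 0, 0, 1, 0, 0,-1, 1, 1,-1],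
      ![ 1, 0, 0,-1, 1,-1,-1, 0,-1, 0,-1,-1, 1,-1],
      ![ 1, 1, 0,-1, 0, 0,-1, 1,-1, 1,-1,-1, 0,-1],
      ![ 0, 0, 1, 1, 0, 1, 1, 1, 1, 1, 1, 1,-1, 1],
      ![ 1,-1, 1,-1, 1, 1, 1, 1, 1, 0, 0, 1, 1, 0],
      ![ 1, 0, 1, 0, 1, 1, 1, 1, 0, 1, 0, 1, 0, 1],
      ![ 1, 1, 1,-1, 1, 1,-1, 1,-1, 1,-1, 0, 0, 0]]

/-- The sign pattern, with 11 rows and 14 columns. -/
def pattern : Matrix (Fin 11) (Fin 14) SignType := Matrix.of entries

lemma pattern_eq : pattern = Pool.Agent.H.MP_e09a39_co.helper93.A := by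
  ext i j
  have h : ∀ (i : Fin 11) (j : Fin 14), entries i j =
      SignType.sign (Pool.Agent.H.MP_e09a39_co.helper93.pat i j) := by decide +kernel
  exact h i j

/-- Eleven points in rational 4-space. -/
def pts : Fin 11 → Fin 4 → ℤ :=
  ![![2, 0, 0, 3], ![0, 2, 0, 3], ![0, 1, 3, 0], ![5, 3, 5, -2], ![2, 3, 5, 1], ![0, 0, 2, 0],
    ![2, 0, 5, 0], ![2, 2, 0, 2], ![2, 3, 3, 3], ![2, 2, 2, 0], ![2, 1, 3, -1]]

/-- Fourteen hyperplanes in rational 4-space. -/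
def hyp : Fin 14 → Fin 4 → ℤ :=
  ![![0, 0, 1, 0], ![1, -1, 0, 0], ![0, 1, 0, 0], ![1, 0, -1, 0], ![-5, 5, 2, 0], ![5, 0, -2, 0],
    ![0, 5, -3, 0], ![1, 0, 0, 0], ![-2, 3, -1, 0], ![3, -2, 0, 0], ![0, 1, -1, 0], ![0, 3, -1, 0],
    ![-5, 3, 2, -1], ![3, 0, -2, 0]]

lemma table : ∀ (i : Fin 11) (j : Fin 14), SignType.sign (pts i 0 * hyp j 0 + pts i 1 * hyp j 1 +
    pts i 2 * hyp j 2 + pts i 3 * hyp j 3) = entries i j := by
  decide +kernel

/-- The points as a rational matrix. -/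
def P : Matrix (Fin 11) (Fin 4) ℚ := fun i k => (pts i k : ℚ)

/-- The hyperplanes as a rational matrix. -/
def H : Matrix (Fin 4) (Fin 14) ℚ := fun k j => (hyp j k : ℚ)

lemma PH_sign (i : Fin 11) (j : Fin 14) : SignType.sign ((P * H) i j) = pattern i j := by
  have ht : pattern i j = entries i j := rfl
  rw [ht, ← table i j, Matrix.mul_apply, Fin.sum_univ_four]
  simp only [P, H]
  have h : ((pts i 0 : ℚ) * (hyp j 0 : ℚ) + (pts i 1 : ℚ) * (hyp j 1 : ℚ) +
    (pts i 2 : ℚ) * (hyp j 2 : ℚ) + (pts i 3 : ℚ) * (hyp j 3 : ℚ)) =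
    ((pts i 0 * hyp j 0 + pts i 1 * hyp j 1 +
    pts i 2 * hyp j 2 + pts i 3 * hyp j 3 : ℤ) : ℚ) := by push_cast; ring
  rw [h]
  generalize (pts i 0 * hyp j 0 + pts i 1 * hyp j 1 + pts i 2 * hyp j 2 + pts i 3 * hyp j 3 : ℤ) = z
  rcases lt_trichotomy z 0 with h | h | h
  · rw [sign_neg h, sign_neg (by exact_mod_cast h)]
  · rw [h]; simp
  · rw [sign_pos h, sign_pos (by exact_mod_cast h)]

/-- Every column of the pattern has exactly three zeros, its minimum rank is 3 and its rational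
minimum rank is 4. -/
theorem result : (∀ j, (Finset.univ.filter (fun i => pattern i j = 0)).card = 3) ∧
    minRank ℝ pattern = 3 ∧ minRank ℚ pattern = 4 := by
  refine ⟨?_, ?_, ?_⟩
  · rw [pattern_eq]
    exact Pool.Agent.H.MP_e09a39_co.helper93.three_zeros
  · have hreal : ∀ i j, SignType.sign ((Pool.Agent.H.MP_e09a39_co.helper93.U *
        Pool.Agent.H.MP_e09a39_co.helper93.V) i j) = pattern i j := fun i j => by
      rw [pattern_eq]
      exact Pool.Agent.H.MP_e09a39_co.helper93.UV_sign i j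
    apply le_antisymm
    · exact Nat.sInf_le ⟨_, hreal, Pool.Agent.H.MP_e09a39_co.helper93.real_rank⟩
    · refine le_csInf ⟨_, _, hreal, rfl⟩ ?_
      rintro r ⟨B, hB, rfl⟩
      rw [pattern_eq] at hB
      exact Pool.Agent.H.MP_e09a39_co.helper93.rows_indep hB
  · have hle : (P * H).rank ≤ 4 :=
      (Matrix.rank_mul_le_right P H).trans ((Matrix.rank_le_card_height H).trans (by simp))
    have hge : ∀ B : Matrix (Fin 11) (Fin 14) ℚ, (∀ i j, SignType.sign (B i j) = pattern i j) →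
        4 ≤ B.rank := by
      intro B hB
      rw [pattern_eq] at hB
      have h3 := Pool.Agent.H.MP_e09a39_co.helper93.rows_indep hB
      have hne : B.rank ≠ 3 := fun h => Pool.Agent.H.MP_e09a39_co.helper93.no_rational hB h
      omega
    apply le_antisymm
    · exact le_trans (Nat.sInf_le ⟨P * H, PH_sign, rfl⟩) hle
    · refine le_csInf ⟨_, P * H, PH_sign, rfl⟩ ?_
      rintro r ⟨B, hB, rfl⟩
      exact hge B hB

end Pool.Agent.Results.MP_e09a39_co.RankFourOverQ
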